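import Pool.Agent.V5helper22.TMF.Main

set_option autoImplicit false

/-!
# The least ratios of consecutive terms of the Thue-Morse-twisted Fibonacci sequence

`h 0 = 0`, `h 1 = 1`, `h n = t n * h (n - 1) + h (n - 2)` with the Thue-Morse sequence `t`.
For `k ≥ 1` and `i < 2 ^ k` let `C k i` be the infimum, and `L k i` the lower limit, of the ratios
`|h (2 ^ k n + i + 1)| / |h (2 ^ k n + i)|` over the `n` with `2 ^ k n + i ≥ 4`. It is proved that

* the infimum is always attained, so it is rational, and it is the best constant in the inequality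
  `|h (2 ^ k n + i + 1)| ≥ C k i |h (2 ^ k n + i)|`;
* `C (2 k) 0 = C (2 k + 1) 0`, and these numbers have the conjectured values `2 / 7` (for `C 1 0`),
  `2 / 3`, `64 / 83`, `52071130 / 67519091`;
* the lower limit `L k i` is always strictly greater than the infimum, so with lower limits instead
  of infima the inequality fails for all `k` and `i`, and the listed values are wrong.

Idea: the pairs `(|h (4 m)|, |h (4 m + 1)|)`, `m = 4 ^ j n`, satisfy a linear recursion with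
nonnegative integer matrices of determinant `± 1`. All pairs with `n ≥ 1` lie in the cone of the
pairs number `2` and `3` (exact formulas for the determinants), and `|h (2 ^ k n + i)|` is a linear
form in the pair with nonnegative coefficients.
-/

open Filter
open Pool.Agent.R488.TM (h t)

namespace Pool.Agent.Results.MP_e68cb8_nt.MinimaAttained

/-- the ratio `|h n| / |h (n - 1)|` -/
noncomputable def ratio (n : ℕ) : ℝ := |(h n : ℝ)| / |(h (n - 1) : ℝ)|

/-- the ratios at the places congruent to `i + 1` modulo `2 ^ k` -/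
def ratios (k i : ℕ) : Set ℝ := {x | ∃ n : ℕ, 4 ≤ 2 ^ k * n + i ∧ x = ratio (2 ^ k * n + i + 1)}

/-- their infimum -/
noncomputable def C (k i : ℕ) : ℝ := sInf (ratios k i)

/-- their lower limit -/
noncomputable def L (k i : ℕ) : ℝ := liminf (fun n : ℕ => ratio (2 ^ k * n + i + 1)) atTop

open Pool.Agent.V5helper22.TMF in
lemma ratio_le {n : ℕ} (hn : 4 ≤ n) : ratio (n + 1) ≤ 5 := by
  have h1 : (1 : ℝ) ≤ ((|h n| : ℤ) : ℝ) := by exact_mod_cast h_pos hn
  have h2 : ratio (n + 1) = rho (n + 1) := rfl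
  rw [h2, rho_succ, div_le_iff₀ (by positivity)]
  exact_mod_cast h_le hn

open Pool.Agent.V5helper22.TMF in
lemma main (k i : ℕ) (hk : 1 ≤ k) (hi : i < 2 ^ k) :
    C k i ∈ ratios k i ∧ (∀ x ∈ ratios k i, C k i ≤ x) ∧ C k i < L k i := by
  obtain ⟨n₀, h0, h1, c, hc, n₁, h2⟩ := att k i hk hi
  have h3 : IsLeast (ratios k i) (ratio (2 ^ k * n₀ + i + 1)) := by
    refine ⟨⟨n₀, h0, rfl⟩, ?_⟩
    rintro x ⟨n, hn, rfl⟩
    exact h1 n hn
  have h4 : C k i = ratio (2 ^ k * n₀ + i + 1) := h3.csInf_eq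
  rw [h4]
  refine ⟨h3.1, fun x hx => h3.2 hx, ?_⟩
  refine hc.trans_le ?_
  have h5 : ∀ᶠ n : ℕ in atTop, c ≤ ratio (2 ^ k * n + i + 1) := by
    filter_upwards [eventually_ge_atTop n₁] with n hn
    exact h2 n hn
  refine le_liminf_of_le ?_ h5
  refine IsBoundedUnder.isCoboundedUnder_ge ⟨5, ?_⟩
  rw [eventually_map]
  filter_upwards [eventually_ge_atTop 4] with n hn
  apply ratio_le
  have : 1 ≤ 2 ^ k := Nat.one_le_pow _ _ (by norm_num)
  nlinarith

open Pool.Agent.V5helper22.TMF in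
lemma C_first (r : ℕ) : C (r + 2) 0 = ratio (4 * (4 ^ (r / 2) * 2) + 1) := by
  have h3 : IsLeast (ratios (r + 2) 0) (ratio (4 * (4 ^ (r / 2) * 2) + 1)) := by
    have h4r : 4 ≤ 2 ^ (r + 2) := by
      rw [two_pow]
      have : 1 ≤ 2 ^ r := Nat.one_le_pow _ _ (by norm_num)
      omega
    refine ⟨?_, ?_⟩
    · obtain ⟨p, q, L, hp, ⟨a, ha⟩, -, h2p, -⟩ := cone r
      refine ⟨a, ?_, ?_⟩
      · rcases Nat.eq_zero_or_pos a with rfl | h
        · omega
        · nlinarith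
      · rw [← hp, ha, two_pow]
        congr 1
        ring
    · rintro x ⟨n, hn, rfl⟩
      have hn1 : 1 ≤ n := by
        rcases Nat.eq_zero_or_pos n with rfl | h
        · omega
        · exact h
      exact first r n hn1
  exact h3.csInf_eq

open Pool.Agent.V5helper22.TMF Pool.Agent.R488.TM in
lemma values (j : ℕ) :
    Y (4 ^ j * 2) = B j * (Pool.Agent.V5helper22.TMF.C j - 2 * B j + A j) +
      (Pool.Agent.V5helper22.TMF.C j - B j) ^ 2 ∧
    X (4 ^ j * 2) = Y (4 ^ j * 2) + (A j * (Pool.Agent.V5helper22.TMF.C j - 2 * B j + A j) +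
      (B j - A j) * (Pool.Agent.V5helper22.TMF.C j - B j)) := by
  obtain ⟨y1, x1⟩ := step j 0
  obtain ⟨y2, x2⟩ := step j 1
  rw [t01, mul_zero, X_zero, Y_zero, zero_add] at x1
  rw [mul_zero, X_zero, Y_zero, zero_add] at y1
  rw [t12, show (1 : ℕ) + 1 = 2 from rfl] at x2
  rw [show (1 : ℕ) + 1 = 2 from rfl] at y2
  constructor
  · rw [y2, x1, y1]; ring
  · rw [x2, x1, y1]; ring

open Pool.Agent.V5helper22.TMF Pool.Agent.R488.TM in
lemma ratio_first (m : ℕ) : ratio (4 * m + 1) = (Y m : ℝ) / (X m : ℝ) := by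
  have h2 : ratio (4 * m + 1) = rho (4 * m + 1) := rfl
  rw [h2, rho_succ, (Pool.Agent.Results.MP_e68cb8_nt.TwoSevenths.abs_h m).1,
    (Pool.Agent.Results.MP_e68cb8_nt.TwoSevenths.abs_h m).2.1]

open Pool.Agent.V5helper22.TMF Pool.Agent.R488.TM in
lemma C_one : C 1 0 = 2 / 7 := by
  have h3 : IsLeast (ratios 1 0) (2 / 7) := by
    refine ⟨⟨7, by norm_num, ?_⟩, ?_⟩
    · have e : ratio (2 ^ 1 * 7 + 0 + 1) = rho (14 + 1) := rfl
      rw [e, rho_succ, show 14 + 1 = 4 * 3 + 3 by norm_num, show 14 = 4 * 3 + 2 by norm_num,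
        (Pool.Agent.Results.MP_e68cb8_nt.TwoSevenths.abs_h 3).2.2.1,
        (Pool.Agent.Results.MP_e68cb8_nt.TwoSevenths.abs_h 3).2.2.2]
      have x1 : X 1 = 1 := by
        have := X_succ 0
        rw [zero_add, t_one, t_zero, X_zero, Y_zero] at this
        simpa using this
      have y1 : Y 1 = 1 := by
        have := Y_succ 0
        rw [zero_add, X_zero, Y_zero] at this
        simpa using this
      have x2 : X 2 = 3 := by
        have := X_succ 1
        rw [show 1 + 1 = 2 from rfl, t_one, t_two, x1, y1] at this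
        rw [this]; norm_num
      have y2 : Y 2 = 2 := by
        have := Y_succ 1
        rw [show 1 + 1 = 2 from rfl, x1, y1] at this
        rw [this]; norm_num
      have e1 : X 3 = 2 := by
        have := X_succ 2
        rw [show 2 + 1 = 3 from rfl, t_two, t_three, x2, y2] at this
        rw [this]; norm_num
      have e2 : Y 3 = 5 := by
        have := Y_succ 2
        rw [show 2 + 1 = 3 from rfl, x2, y2] at this
        rw [this]; norm_num
      rw [e1, e2]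
      norm_num
    · rintro x ⟨n, hn, rfl⟩
      have h1 := Pool.Agent.Results.MP_e68cb8_nt.TwoSevenths.result (2 ^ 1 * n + 0 + 1) (by omega)
      rw [Nat.add_sub_cancel] at h1
      have e : ratio (2 ^ 1 * n + 0 + 1) = rho (2 ^ 1 * n + 0 + 1) := rfl
      have h2 : (1 : ℝ) ≤ ((|h (2 ^ 1 * n + 0)| : ℤ) : ℝ) := by exact_mod_cast h_pos hn
      rw [e, rho_succ, le_div_iff₀ (by positivity)]
      have h3 : ((2 / 7 * |(h (2 ^ 1 * n + 0) : ℚ)| : ℚ) : ℝ) ≤
          ((|(h (2 ^ 1 * n + 0 + 1) : ℚ)| : ℚ) : ℝ) := by exact_mod_cast h1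
      push_cast at h3 ⊢
      exact h3
  exact h3.csInf_eq

/-- `h` and `t` are the sequences of the problem, `ratio n = |h n| / |h (n - 1)|`, and `C k i`,
`L k i` are the infimum and the lower limit of `ratio (2 ^ k n + i + 1)`. -/
theorem result :
    (∀ k i : ℕ, 1 ≤ k → i < 2 ^ k →
      (∃ n : ℕ, 4 ≤ 2 ^ k * n + i ∧ C k i = ratio (2 ^ k * n + i + 1)) ∧
      (∃ q : ℚ, C k i = q) ∧
      (∀ n : ℕ, 4 ≤ 2 ^ k * n + i →
        C k i * |(h (2 ^ k * n + i) : ℝ)| ≤ |(h (2 ^ k * n + i + 1) : ℝ)|) ∧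
      C k i < L k i ∧
      (∃ n : ℕ, 4 ≤ 2 ^ k * n + i ∧
        |(h (2 ^ k * n + i + 1) : ℝ)| < L k i * |(h (2 ^ k * n + i) : ℝ)|)) ∧
    (∀ k : ℕ, 1 ≤ k → C (2 * k) 0 = ratio (2 * 4 ^ k + 1) ∧ C (2 * k + 1) 0 = C (2 * k) 0) ∧
    C 1 0 = 2 / 7 ∧ C 2 0 = 2 / 3 ∧ C 3 0 = 2 / 3 ∧ C 4 0 = 64 / 83 ∧ C 5 0 = 64 / 83 ∧
    C 6 0 = 52071130 / 67519091 ∧ C 7 0 = 52071130 / 67519091 := by
  have key : ∀ k : ℕ, 1 ≤ k → C (2 * k) 0 = ratio (2 * 4 ^ k + 1) ∧
      C (2 * k + 1) 0 = C (2 * k) 0 := by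
    intro k hk
    obtain ⟨j, rfl⟩ : ∃ j, k = j + 1 := ⟨k - 1, by omega⟩
    have h1 := C_first (2 * j)
    have h2 := C_first (2 * j + 1)
    rw [show 2 * j / 2 = j by omega] at h1
    rw [show (2 * j + 1) / 2 = j by omega] at h2
    have e : 2 * 4 ^ (j + 1) + 1 = 4 * (4 ^ j * 2) + 1 := by ring
    rw [e]
    exact ⟨h1, h2.trans h1.symm⟩
  have v1 : C 2 0 = 2 / 3 := by
    have h1 := (key 1 le_rfl).1
    rw [show 2 * 4 ^ 1 + 1 = 4 * (4 ^ 0 * 2) + 1 by norm_num, ratio_first] at h1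
    obtain ⟨e1, e2⟩ := values 0
    rw [Pool.Agent.V5helper22.TMF.A_zero, Pool.Agent.V5helper22.TMF.B_zero,
      Pool.Agent.V5helper22.TMF.C_zero] at e1 e2
    rw [h1, e2, e1]
    norm_num
  have v2 : C 4 0 = 64 / 83 := by
    have h1 := (key 2 (by norm_num)).1
    rw [show 2 * 4 ^ 2 + 1 = 4 * (4 ^ 1 * 2) + 1 by norm_num, ratio_first] at h1
    obtain ⟨e1, e2⟩ := values 1
    simp only [Pool.Agent.V5helper22.TMF.A_succ, Pool.Agent.V5helper22.TMF.B_succ,
      Pool.Agent.V5helper22.TMF.C_succ, Pool.Agent.V5helper22.TMF.A_zero,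
      Pool.Agent.V5helper22.TMF.B_zero, Pool.Agent.V5helper22.TMF.C_zero] at e1 e2
    rw [h1, e2, e1]
    norm_num
  have v3 : C 6 0 = 52071130 / 67519091 := by
    have h1 := (key 3 (by norm_num)).1
    rw [show 2 * 4 ^ 3 + 1 = 4 * (4 ^ 2 * 2) + 1 by norm_num, ratio_first] at h1
    obtain ⟨e1, e2⟩ := values 2
    have a2 : Pool.Agent.V5helper22.TMF.A 2 = 793 := rfl
    have b2 : Pool.Agent.V5helper22.TMF.B 2 = 2673 := rfl
    have c2 : Pool.Agent.V5helper22.TMF.C 2 = 9010 := rfl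
    rw [a2, b2, c2] at e1 e2
    rw [h1, e2, e1]
    norm_num
  refine ⟨fun k i hk hi => ?_, key, C_one, v1, ?_, v2, ?_, v3, ?_⟩
  · obtain ⟨⟨n₀, hn0, he⟩, h2, h3⟩ := main k i hk hi
    have hpos : ∀ n, 4 ≤ n → (0 : ℝ) < |(h n : ℝ)| := by
      intro n hn
      have h4 : (1 : ℝ) ≤ ((|h n| : ℤ) : ℝ) := by
        exact_mod_cast Pool.Agent.V5helper22.TMF.h_pos hn
      rw [Int.cast_abs] at h4
      linarith
    have hr : ∀ n, ratio (n + 1) = |(h (n + 1) : ℝ)| / |(h n : ℝ)| := by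
      intro n
      unfold ratio
      rw [Nat.add_sub_cancel]
    refine ⟨⟨n₀, hn0, he⟩, ⟨|(h (2 ^ k * n₀ + i + 1) : ℚ)| / |(h (2 ^ k * n₀ + i) : ℚ)|, ?_⟩,
      fun n hn => ?_, h3, ⟨n₀, hn0, ?_⟩⟩
    · rw [he, hr]
      push_cast
      rfl
    · have h4 := h2 _ ⟨n, hn, rfl⟩
      rw [hr, le_div_iff₀ (hpos _ hn)] at h4
      exact h4
    · rw [he, hr, div_lt_iff₀ (hpos _ hn0)] at h3
      exact h3
  · rw [show (3 : ℕ) = 2 * 1 + 1 from rfl, (key 1 le_rfl).2]; exact v1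
  · rw [show (5 : ℕ) = 2 * 2 + 1 from rfl, (key 2 (by norm_num)).2]; exact v2
  · rw [show (7 : ℕ) = 2 * 3 + 1 from rfl, (key 3 (by norm_num)).2]; exact v3

end Pool.Agent.Results.MP_e68cb8_nt.MinimaAttained
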